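import Mathlib
import Pool.Agent.Q183.Omg.Stage
import Pool.Agent.Q183.Omg.Conc

set_option autoImplicit false

/-!
# Strong sweeping out along `Ω (m ^ 2 + n ^ 2)`

For every non-atomic ergodic system there is a measurable set `A` for which the averages of `1_A (T ^ Ω(m² + n²) x)`
over `1 ≤ m, n ≤ N` have limsup `1` and liminf `0` almost everywhere.
-/

namespace Pool.Agent.Results.MP_696bea_an.StrongSweepingOut

open MeasureTheory Filter Topology Set Pool.Agent.Q183.Omg
open scoped ENNReal

universe u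

/-- The average of `1_A (T ^ Ω(m² + n²) x)` over `1 ≤ m, n ≤ N`. -/
noncomputable def avg {X : Type u} (T : X → X) (A : Set X) (x : X) (N : ℕ) : ℝ :=
  (1 / (N : ℝ) ^ 2) * ∑ m ∈ Finset.Icc 1 N, ∑ n ∈ Finset.Icc 1 N,
    A.indicator (fun _ => (1 : ℝ)) (T^[ArithmeticFunction.cardFactors (m ^ 2 + n ^ 2)] x)

/-- the exponent -/
def g (p : ℕ × ℕ) : ℕ := ArithmeticFunction.cardFactors (p.1 ^ 2 + p.2 ^ 2)

theorem avg_eq {X : Type u} (T : X → X) (A : Set X) (x : X) (N : ℕ) :
    avg T A x N = (hits T g N A x : ℝ) / (N : ℝ) ^ 2 := by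
  classical
  have h1 : (hits T g N A x : ℝ) = ∑ m ∈ Finset.Icc 1 N, ∑ n ∈ Finset.Icc 1 N,
      A.indicator (fun _ => (1 : ℝ)) (T^[ArithmeticFunction.cardFactors (m ^ 2 + n ^ 2)] x) := by
    rw [← Finset.sum_product']
    unfold hits box
    rw [Finset.card_filter]
    push_cast
    refine Finset.sum_congr rfl fun p _ => ?_
    by_cases h : T^[g p] x ∈ A
    · rw [if_pos h]
      exact (indicator_of_mem h (fun _ => (1 : ℝ))).symm
    · rw [if_neg h]
      exact (indicator_of_notMem h (fun _ => (1 : ℝ))).symm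
  rw [avg, ← h1]
  ring

theorem avg_nonneg {X : Type u} (T : X → X) (A : Set X) (x : X) (N : ℕ) : 0 ≤ avg T A x N := by
  rw [avg_eq]; positivity

theorem avg_le_one {X : Type u} (T : X → X) (A : Set X) (x : X) (N : ℕ) : avg T A x N ≤ 1 := by
  rw [avg_eq]
  refine div_le_one_of_le₀ ?_ (by positivity)
  exact_mod_cast hits_le g N A x

/-- the conclusion -/
theorem main {X : Type u} [MeasurableSpace X] (μ : Measure X) [IsProbabilityMeasure μ] (T : X → X)
    (hsmall : ∀ η : ℝ≥0∞, 0 < η → ∃ B, MeasurableSet B ∧ 0 < μ B ∧ μ B < η) (hT : Ergodic T μ) :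
    ∃ A : Set X, MeasurableSet A ∧ ∀ᵐ x ∂μ, limsup (avg T A x) atTop = 1 ∧ liminf (avg T A x) atTop = 0 := by
  obtain ⟨A, hA, hae⟩ := sweeping hT hsmall g ctr (fun y => y ^ 4) ctr_tendsto ctr_step conc
  refine ⟨A, hA, ?_⟩
  filter_upwards [hae] with x hx
  have hbdd1 : IsBoundedUnder (· ≤ ·) atTop (avg T A x) :=
    isBoundedUnder_of ⟨1, fun N => avg_le_one T A x N⟩
  have hbdd2 : IsBoundedUnder (· ≥ ·) atTop (avg T A x) :=
    isBoundedUnder_of ⟨0, fun N => avg_nonneg T A x N⟩
  have hpow : ∀ y : ℕ, 1 ≤ y → y ≤ y ^ 4 := fun y _ => Nat.le_self_pow (by norm_num) y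
  constructor
  · apply le_antisymm
    · exact limsup_le_of_le hbdd2.isCoboundedUnder_flip (Eventually.of_forall fun N => avg_le_one T A x N)
    · apply le_of_forall_lt
      intro c hc
      have h1 : c < (c + 1) / 2 := by linarith
      refine lt_of_lt_of_le h1 ?_
      refine le_limsup_of_frequently_le ?_ hbdd1
      rw [frequently_atTop]
      intro N₀
      obtain ⟨y, hy1, hy2⟩ := hx.1 (1 - (c + 1) / 2) (by linarith) (N₀ + 1)
      refine ⟨y ^ 4, (by omega : N₀ ≤ y).trans (hpow y (by omega)), ?_⟩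
      have hpos : 0 < y ^ 4 := pow_pos (by omega) 4
      have hpos' : (0 : ℝ) < ((y ^ 4 : ℕ) : ℝ) ^ 2 := by positivity
      rw [avg_eq, le_div_iff₀ hpos']
      have e : (1 - (1 - (c + 1) / 2)) = (c + 1) / 2 := by ring
      rw [e] at hy2
      exact hy2
  · apply le_antisymm
    · apply le_of_forall_gt
      intro c hc
      have h1 : c / 2 < c := by linarith
      refine lt_of_le_of_lt ?_ h1
      refine liminf_le_of_frequently_le ?_ hbdd2
      rw [frequently_atTop]
      intro N₀
      obtain ⟨y, hy1, hy2⟩ := hx.2 (c / 2) (by linarith) (N₀ + 1)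
      refine ⟨y ^ 4, (by omega : N₀ ≤ y).trans (hpow y (by omega)), ?_⟩
      have hpos : 0 < y ^ 4 := pow_pos (by omega) 4
      have hpos' : (0 : ℝ) < ((y ^ 4 : ℕ) : ℝ) ^ 2 := by positivity
      rw [avg_eq, div_le_iff₀ hpos']
      exact hy2
    · exact le_liminf_of_le hbdd1.isCoboundedUnder_flip (Eventually.of_forall fun N => avg_nonneg T A x N)

/-- small sets of positive measure in a standard Borel space without point masses -/
theorem small {X : Type u} [MeasurableSpace X] [StandardBorelSpace X] (μ : Measure X) [IsProbabilityMeasure μ]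
    (h0 : ∀ x, μ {x} = 0) (η : ℝ≥0∞) (hη : 0 < η) : ∃ B, MeasurableSet B ∧ 0 < μ B ∧ μ B < η := by
  letI := upgradeStandardBorel X
  letI := TopologicalSpace.upgradeIsCompletelyMetrizable X
  have huniv : μ (univ : Set X) ≠ 0 := by simp
  obtain ⟨x, _, hx⟩ := exists_mem_forall_mem_nhdsWithin_pos_measure huniv
  have hanti : Antitone fun n : ℕ => Metric.closedBall x (1 / ((n : ℝ) + 1)) := by
    intro m n hmn
    apply Metric.closedBall_subset_closedBall
    have : (m : ℝ) ≤ n := by exact_mod_cast hmn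
    exact one_div_le_one_div_of_le (by positivity) (by linarith)
  have hlim := tendsto_measure_iInter_atTop (μ := μ) (s := fun n : ℕ => Metric.closedBall x (1 / ((n : ℝ) + 1)))
    (fun n => Metric.isClosed_closedBall.measurableSet.nullMeasurableSet) hanti ⟨0, measure_ne_top _ _⟩
  have hint : (⋂ n : ℕ, Metric.closedBall x (1 / ((n : ℝ) + 1))) = {x} := by
    ext z
    simp only [mem_iInter, Metric.mem_closedBall, mem_singleton_iff]
    constructor
    · intro h
      have h1 : dist z x ≤ 0 := ge_of_tendsto' tendsto_one_div_add_atTop_nhds_zero_nat h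
      exact dist_le_zero.mp h1
    · rintro rfl n
      rw [dist_self]
      positivity
  rw [hint, h0] at hlim
  obtain ⟨n, hn⟩ := (hlim.eventually (gt_mem_nhds hη)).exists
  refine ⟨Metric.closedBall x (1 / ((n : ℝ) + 1)), Metric.isClosed_closedBall.measurableSet, ?_, hn⟩
  apply hx
  rw [nhdsWithin_univ]
  exact Metric.closedBall_mem_nhds x (by positivity)

/-- Q1 holds: for every non-atomic ergodic system `(X, μ, T)` on a standard Borel space there is a measurable `A` for
which the averages along `Ω(m² + n²)` have limsup `1` and liminf `0` almost everywhere; the same holds on an arbitrary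
probability space which has measurable sets of arbitrarily small positive measure. -/
theorem result :
    (∀ (X : Type u) [MeasurableSpace X] [StandardBorelSpace X] (μ : Measure X) [IsProbabilityMeasure μ] (T : X → X),
      (∀ x, μ {x} = 0) → Ergodic T μ →
      ∃ A : Set X, MeasurableSet A ∧ ∀ᵐ x ∂μ, limsup (avg T A x) atTop = 1 ∧ liminf (avg T A x) atTop = 0) ∧
    (∀ (X : Type u) [MeasurableSpace X] (μ : Measure X) [IsProbabilityMeasure μ] (T : X → X),
      (∀ η : ℝ≥0∞, 0 < η → ∃ B, MeasurableSet B ∧ 0 < μ B ∧ μ B < η) → Ergodic T μ →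
      ∃ A : Set X, MeasurableSet A ∧ ∀ᵐ x ∂μ, limsup (avg T A x) atTop = 1 ∧ liminf (avg T A x) atTop = 0) :=
  ⟨fun _ _ _ μ _ T h0 hT => main μ T (small μ h0) hT, fun _ _ μ _ T h hT => main μ T h hT⟩

end Pool.Agent.Results.MP_696bea_an.StrongSweepingOut
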